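import Pool.Agent.H10.EL.Defs

/-! Elements of k(u,w), w^2 = q(u), and the w-part of an identity of derivatives. -/

set_option autoImplicit false

open Polynomial IntermediateField

namespace Pool.Agent.H46.EL

variable {k M : Type} [Field k] [Field M] [CharZero M] [Algebra k M] {u w : M}

theorem av_ne (hu : Transcendental k u) {P : k[X]} (hP : P ≠ 0) : aeval u P ≠ 0 := by
  intro h
  exact hu ⟨P, hP, h⟩

theorem av_inj (hu : Transcendental k u) {P Q : k[X]} (h : aeval u P = aeval u Q) : P = Q := by
  by_contra hne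
  have h1 : aeval u (P - Q) ≠ 0 := av_ne hu (sub_ne_zero.2 hne)
  apply h1
  rw [map_sub, h, sub_self]

/-- parity -/
theorem par {q : k[X]} (hq3 : q.natDegree = 3) {X Y : k[X]} (h : X ^ 2 = Y ^ 2 * q) :
    X = 0 ∧ Y = 0 := by
  have hq : q ≠ 0 := by rintro rfl; simp at hq3
  by_cases hY : Y = 0
  · subst hY
    refine ⟨?_, rfl⟩
    simpa using h
  · exfalso
    have hX : X ≠ 0 := by
      rintro rfl
      have h1 : Y ^ 2 * q = 0 := by rw [← h]; simp
      exact mul_ne_zero (pow_ne_zero _ hY) hq h1
    have h1 := congrArg natDegree h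
    rw [natDegree_pow, natDegree_mul (pow_ne_zero _ hY) hq, natDegree_pow, hq3] at h1
    omega

theorem norm_ne {q : k[X]} (hq3 : q.natDegree = 3) {X Y : k[X]} (h : ¬ (X = 0 ∧ Y = 0)) :
    X ^ 2 - Y ^ 2 * q ≠ 0 := fun h1 => h (par hq3 (sub_eq_zero.1 h1))

/-- linear independence of 1 and w -/
theorem lin (hu : Transcendental k u) {q : k[X]} (hq3 : q.natDegree = 3)
    (hw : w ^ 2 = aeval u q) {X Y : k[X]} (h : aeval u X + aeval u Y * w = 0) :
    X = 0 ∧ Y = 0 := by
  apply par hq3
  apply av_inj hu
  rw [map_mul, map_pow, map_pow, ← hw]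
  have h1 : aeval u X = - (aeval u Y * w) := eq_neg_of_add_eq_zero_left h
  rw [h1]; ring

theorem repr {q : k[X]} (hu : Transcendental k u) (hq3 : q.natDegree = 3)
    (hw : w ^ 2 = aeval u q) {x : M} (hx : x ∈ IntermediateField.adjoin k {u, w}) :
    ∃ P Q S : k[X], S ≠ 0 ∧ x * aeval u S = aeval u P + aeval u Q * w := by
  induction hx using IntermediateField.adjoin_induction with
  | mem x hx =>
    rcases hx with rfl | hx
    · exact ⟨X, 0, 1, one_ne_zero, by simp⟩
    · have : x = w := hx
      subst this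
      exact ⟨0, 1, 1, one_ne_zero, by simp⟩
  | algebraMap x => exact ⟨C x, 0, 1, one_ne_zero, by simp⟩
  | add x y hx hy ihx ihy =>
    obtain ⟨P, Q, S, hS, h1⟩ := ihx
    obtain ⟨P', Q', S', hS', h2⟩ := ihy
    refine ⟨P * S' + P' * S, Q * S' + Q' * S, S * S', mul_ne_zero hS hS', ?_⟩
    simp only [map_mul, map_add]
    linear_combination aeval u S' * h1 + aeval u S * h2
  | mul x y hx hy ihx ihy =>
    obtain ⟨P, Q, S, hS, h1⟩ := ihx
    obtain ⟨P', Q', S', hS', h2⟩ := ihy
    refine ⟨P * P' + Q * Q' * q, P * Q' + Q * P', S * S', mul_ne_zero hS hS', ?_⟩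
    simp only [map_mul, map_add]
    rw [← hw]
    linear_combination (y * aeval u S') * h1 + (aeval u P + aeval u Q * w) * h2
  | inv x hx ihx =>
    obtain ⟨P, Q, S, hS, h1⟩ := ihx
    by_cases hx0 : x = 0
    · subst hx0
      exact ⟨0, 0, 1, one_ne_zero, by simp⟩
    · have hPQ : ¬ (P = 0 ∧ Q = 0) := by
        rintro ⟨rfl, rfl⟩
        simp only [map_zero, zero_mul, add_zero] at h1
        exact mul_ne_zero hx0 (av_ne hu hS) h1
      refine ⟨P * S, - (Q * S), P ^ 2 - Q ^ 2 * q, norm_ne hq3 hPQ, ?_⟩
      rw [inv_mul_eq_iff_eq_mul₀ hx0]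
      simp only [map_mul, map_sub, map_pow, map_neg]
      rw [← hw]
      linear_combination (-(aeval u P) + aeval u Q * w) * h1

theorem w_ne {q : k[X]} (hu : Transcendental k u) (hq3 : q.natDegree = 3)
    (hw : w ^ 2 = aeval u q) : w ≠ 0 := by
  rintro rfl
  have hq : q ≠ 0 := by rintro rfl; simp at hq3
  apply av_ne hu hq
  rw [← hw]; simp

theorem w_not {q : k[X]} (hu : Transcendental k u) (hq3 : q.natDegree = 3)
    (hw : w ^ 2 = aeval u q) : w ∉ k⟮u⟯ := by
  intro h
  obtain ⟨R, S, hRS⟩ := (IntermediateField.mem_adjoin_simple_iff k w).1 h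
  have hw0 := w_ne hu hq3 hw
  have hS : aeval u S ≠ 0 := by
    intro h0
    rw [h0, div_zero] at hRS
    exact hw0 hRS
  have h1 : aeval u (-R) + aeval u S * w = 0 := by
    rw [hRS, map_neg]
    field_simp
    ring
  have h2 := (lin hu hq3 hw h1).2
  rw [h2, map_zero] at hS
  exact hS rfl

theorem lin' {q : k[X]} (hu : Transcendental k u) (hq3 : q.natDegree = 3)
    (hw : w ^ 2 = aeval u q) {x y : M} (hx : x ∈ k⟮u⟯) (hy : y ∈ k⟮u⟯) (h : x + y * w = 0) :
    x = 0 := by
  by_cases hy0 : y = 0
  · rw [hy0, zero_mul, add_zero] at h; exact h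
  · exfalso
    apply w_not hu hq3 hw
    have h1 : w = - x / y := by
      field_simp
      linear_combination h
    rw [h1]
    exact div_mem (neg_mem hx) hy

theorem av_mem (P : k[X]) : aeval u P ∈ k⟮u⟯ := by
  rw [IntermediateField.mem_adjoin_simple_iff]
  exact ⟨P, 1, by simp⟩

theorem D_av (D : Derivation k M M) (hD : D u = 1) (P : k[X]) :
    D (aeval u P) = aeval u (derivative P) := by
  rw [Derivation.map_aeval, hD, smul_eq_mul, mul_one]

/-- the logarithmic derivative of an element of k(u,w) -/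
theorem logder {q : k[X]} (hu : Transcendental k u) (hq3 : q.natDegree = 3)
    (hw : w ^ 2 = aeval u q) (D : Derivation k M M) (hD : D u = 1) {N : M}
    (hN : N ∈ IntermediateField.adjoin k {u, w}) (hN0 : N ≠ 0) :
    ∃ α β : k[X], IsCoprime α β ∧ α ^ 2 - β ^ 2 * q ≠ 0 ∧ ∃ v ∈ k⟮u⟯,
      2 * w * (D N / N) = v * w + aeval u (H10.EL.num q α β) / aeval u (α ^ 2 - β ^ 2 * q) := by
  classical
  obtain ⟨P, Q, S, hS, h1⟩ := repr hu hq3 hw hN
  have hw0 := w_ne hu hq3 hw
  have hPQ : ¬ (P = 0 ∧ Q = 0) := by
    rintro ⟨rfl, rfl⟩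
    simp only [map_zero, zero_mul, add_zero] at h1
    exact mul_ne_zero hN0 (av_ne hu hS) h1
  obtain ⟨g, α, β, hg, hcop, hP, hQ⟩ : ∃ g α β : k[X], g ≠ 0 ∧ IsCoprime α β ∧ P = g * α ∧
      Q = g * β := by
    have hne : P ≠ 0 ∨ Q ≠ 0 := by
      by_contra hc
      push Not at hc
      exact hPQ hc
    have hg : EuclideanDomain.gcd P Q ≠ 0 := by
      intro h0
      rw [EuclideanDomain.gcd_eq_zero_iff] at h0
      exact hPQ h0
    obtain ⟨α, hα⟩ := EuclideanDomain.gcd_dvd_left P Q
    obtain ⟨β, hβ⟩ := EuclideanDomain.gcd_dvd_right P Q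
    refine ⟨_, α, β, hg, ?_, hα, hβ⟩
    refine ⟨EuclideanDomain.gcdA P Q, EuclideanDomain.gcdB P Q, ?_⟩
    have h2 := EuclideanDomain.gcd_eq_gcd_ab P Q
    apply mul_left_cancel₀ hg
    calc EuclideanDomain.gcd P Q * (EuclideanDomain.gcdA P Q * α + EuclideanDomain.gcdB P Q * β)
        = (EuclideanDomain.gcd P Q * α) * EuclideanDomain.gcdA P Q
          + (EuclideanDomain.gcd P Q * β) * EuclideanDomain.gcdB P Q := by ring
      _ = P * EuclideanDomain.gcdA P Q + Q * EuclideanDomain.gcdB P Q := by rw [← hα, ← hβ]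
      _ = EuclideanDomain.gcd P Q * 1 := by rw [mul_one]; exact h2.symm
  have hn : α ^ 2 - β ^ 2 * q ≠ 0 := by
    apply norm_ne hq3
    rintro ⟨rfl, rfl⟩
    exact hPQ ⟨by rw [hP, mul_zero], by rw [hQ, mul_zero]⟩
  subst hP hQ
  set a : M := aeval u α + aeval u β * w with ha
  have hgu := av_ne hu hg
  have hSu := av_ne hu hS
  have hnu := av_ne hu hn
  have haa : a * (aeval u α - aeval u β * w) = aeval u (α ^ 2 - β ^ 2 * q) := by
    rw [ha]
    simp only [map_sub, map_mul, map_pow]
    rw [← hw]; ring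
  have ha0 : a ≠ 0 := by
    intro h0
    rw [h0, zero_mul] at haa
    exact hnu haa.symm
  have h2 : N * aeval u S = aeval u g * a := by
    rw [h1, ha]; simp only [map_mul]; ring
  have hDw : 2 * w * D w = aeval u (derivative q) := by
    have h3 := congrArg D hw
    rw [D_av D hD, pow_two, D.leibniz] at h3
    simp only [smul_eq_mul] at h3
    linear_combination h3
  have hDa : 2 * w * D a = 2 * w * aeval u (derivative α) + 2 * aeval u (derivative β) * aeval u q
      + aeval u β * aeval u (derivative q) := by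
    rw [ha, map_add, D.leibniz, D_av D hD, D_av D hD, ← hw]
    simp only [smul_eq_mul]
    linear_combination (aeval u β) * hDw
  have hDN : D N * aeval u S + N * aeval u (derivative S) =
      aeval u (derivative g) * a + aeval u g * D a := by
    have h3 := congrArg D h2
    rw [D.leibniz, D.leibniz, D_av D hD, D_av D hD] at h3
    simp only [smul_eq_mul] at h3
    linear_combination h3
  have hlog : D N / N = aeval u (derivative g) / aeval u g - aeval u (derivative S) / aeval u S
      + D a / a := by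
    field_simp
    have h4 : N = aeval u g * a / aeval u S := by
      rw [eq_div_iff hSu]; exact h2
    have h5 : D N * aeval u S = aeval u (derivative g) * a + aeval u g * D a
      - N * aeval u (derivative S) := by linear_combination hDN
    have h6 : D N = (aeval u (derivative g) * a + aeval u g * D a
      - N * aeval u (derivative S)) / aeval u S := by
      rw [eq_div_iff hSu]; exact h5
    rw [h6, h4]
    field_simp
    ring
  refine ⟨α, β, hcop, hn, 2 * (aeval u (derivative g) / aeval u g -
    aeval u (derivative S) / aeval u S) + (2 * aeval u α * aeval u (derivative α) - aeval u β *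
      (2 * aeval u (derivative β) * aeval u q + aeval u β * aeval u (derivative q))) /
        aeval u (α ^ 2 - β ^ 2 * q), ?_, ?_⟩
  · refine add_mem (mul_mem (ofNat_mem _ 2) (sub_mem (div_mem (av_mem _) (av_mem _))
      (div_mem (av_mem _) (av_mem _)))) (div_mem (sub_mem (mul_mem (mul_mem (ofNat_mem _ 2)
      (av_mem _)) (av_mem _)) (mul_mem (av_mem _) (add_mem (mul_mem (mul_mem (ofNat_mem _ 2)
      (av_mem _)) (av_mem _)) (mul_mem (av_mem _) (av_mem _))))) (av_mem _))
  · have h7 : D a / a = D a * (aeval u α - aeval u β * w) / aeval u (α ^ 2 - β ^ 2 * q) := by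
      rw [← haa]
      have h8 : aeval u α - aeval u β * w ≠ 0 := by
        intro h0
        rw [h0, mul_zero] at haa
        exact hnu haa.symm
      field_simp
    rw [hlog, h7]
    have h9 : aeval u (H10.EL.num q α β) = 2 * aeval u α * aeval u (derivative β) * aeval u q
        - 2 * aeval u (derivative α) * aeval u β * aeval u q
        + aeval u α * aeval u β * aeval u (derivative q) := by
      simp only [H10.EL.num, map_add, map_sub, map_mul, map_ofNat]
    rw [h9]
    have h10 : 2 * w * (D a * (aeval u α - aeval u β * w)) =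
        (2 * aeval u α * aeval u (derivative α) - aeval u β *
      (2 * aeval u (derivative β) * aeval u q + aeval u β * aeval u (derivative q))) * w
      + (2 * aeval u α * aeval u (derivative β) * aeval u q
        - 2 * aeval u (derivative α) * aeval u β * aeval u q
        + aeval u α * aeval u β * aeval u (derivative q)) := by
      rw [← hw] at hDa ⊢
      linear_combination (aeval u α - aeval u β * w) * hDa
    have h11 : 2 * w * (aeval u (derivative g) / aeval u g - aeval u (derivative S) / aeval u S +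
        D a * (aeval u α - aeval u β * w) / aeval u (α ^ 2 - β ^ 2 * q)) =
        2 * (aeval u (derivative g) / aeval u g - aeval u (derivative S) / aeval u S) * w +
        (2 * w * (D a * (aeval u α - aeval u β * w))) / aeval u (α ^ 2 - β ^ 2 * q) := by
      field_simp
    rw [h11, h10]
    field_simp
    ring

theorem DT {q : k[X]} (hu : Transcendental k u) (hq3 : q.natDegree = 3)
    (hw : w ^ 2 = aeval u q) (D : Derivation k M M) (hD : D u = 1) {T : M}
    (hT : T ∈ IntermediateField.adjoin k {u, w}) :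
    ∃ B S : k[X], S ≠ 0 ∧ ∃ v ∈ k⟮u⟯,
      2 * w * D T = v * w + aeval u (2 * (derivative B * S - B * derivative S) * q
        + B * S * derivative q) / aeval u (S ^ 2) := by
  obtain ⟨A, B, S, hS, h1⟩ := repr hu hq3 hw hT
  have hw0 := w_ne hu hq3 hw
  have hSu := av_ne hu hS
  have hDw : 2 * w * D w = aeval u (derivative q) := by
    have h3 := congrArg D hw
    rw [D_av D hD, pow_two, D.leibniz] at h3
    simp only [smul_eq_mul] at h3
    linear_combination h3
  have h2 : D T * aeval u S + T * aeval u (derivative S) =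
      aeval u (derivative A) + aeval u (derivative B) * w + aeval u B * D w := by
    have h3 := congrArg D h1
    rw [map_add, D.leibniz, D.leibniz, D_av D hD, D_av D hD, D_av D hD] at h3
    simp only [smul_eq_mul] at h3
    linear_combination h3
  refine ⟨B, S, hS, 2 * (aeval u (derivative A) * aeval u S - aeval u A *
    aeval u (derivative S)) / aeval u S ^ 2, ?_, ?_⟩
  · exact div_mem (mul_mem (ofNat_mem _ 2) (sub_mem (mul_mem (av_mem _) (av_mem _))
      (mul_mem (av_mem _) (av_mem _)))) (pow_mem (av_mem _) _)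
  · simp only [map_add, map_mul, map_sub, map_pow, map_ofNat]
    rw [← sub_eq_zero]
    have h3 : (2 * w * D T - (2 * (aeval u (derivative A) * aeval u S - aeval u A *
        aeval u (derivative S)) / aeval u S ^ 2 * w +
        (2 * (aeval u (derivative B) * aeval u S - aeval u B * aeval u (derivative S)) *
          aeval u q + aeval u B * aeval u S * aeval u (derivative q)) / aeval u S ^ 2))
        * aeval u S ^ 2 = 0 := by
      rw [sub_mul, add_mul]
      have e1 : 2 * (aeval u (derivative A) * aeval u S - aeval u A *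
        aeval u (derivative S)) / aeval u S ^ 2 * w * aeval u S ^ 2 =
        2 * (aeval u (derivative A) * aeval u S - aeval u A *
        aeval u (derivative S)) * w := by field_simp
      have e2 : (2 * (aeval u (derivative B) * aeval u S - aeval u B * aeval u (derivative S)) *
          aeval u q + aeval u B * aeval u S * aeval u (derivative q)) / aeval u S ^ 2
          * aeval u S ^ 2 = 2 * (aeval u (derivative B) * aeval u S -
          aeval u B * aeval u (derivative S)) *
          aeval u q + aeval u B * aeval u S * aeval u (derivative q) := by field_simp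
      rw [e1, e2, ← hw]
      linear_combination (2 * w * aeval u S) * h2 - (2 * w * aeval u (derivative S)) * h1
        + (aeval u B * aeval u S) * hDw
    exact (mul_eq_zero.1 h3).resolve_right (pow_ne_zero _ hSu)

theorem cleared_of (hu : Transcendental k u) (q : k[X]) (hq3 : q.natDegree = 3)
    (hw : w ^ 2 = aeval u q) (D : Derivation k M M) (hD : D u = 1) {r : ℕ} (γ : Fin r → k)
    (N : Fin r → M) (hN : ∀ l, N l ∈ IntermediateField.adjoin k {u, w}) (hN0 : ∀ l, N l ≠ 0)
    (T : M) (hT : T ∈ IntermediateField.adjoin k {u, w}) (c : k)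
    (h : D T = algebraMap k M c * (1 / w) + ∑ l, algebraMap k M (γ l) * (D (N l) / N l)) :
    ∃ (α β : Fin r → k[X]) (B S : k[X]), (∀ l, IsCoprime (α l) (β l)) ∧
      (∀ l, α l ^ 2 - β l ^ 2 * q ≠ 0) ∧ S ≠ 0 ∧ H10.EL.Cleared q γ α β B S c := by
  classical
  have hw0 := w_ne hu hq3 hw
  choose α β hcop hn v hv hlog using fun l => logder hu hq3 hw D hD (hN l) (hN0 l)
  obtain ⟨B, S, hS, y, hy, hDT⟩ := DT hu hq3 hw D hD hT
  refine ⟨α, β, B, S, hcop, hn, hS, ?_⟩
  have hSu := av_ne hu hS
  have hnu : ∀ l, aeval u (α l ^ 2 - β l ^ 2 * q) ≠ 0 := fun l => av_ne hu (hn l)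
  have h1 : 2 * w * D T = 2 * algebraMap k M c
      + ∑ l, algebraMap k M (γ l) * (2 * w * (D (N l) / N l)) := by
    rw [h, mul_add]
    congr 1
    · field_simp
    · rw [Finset.mul_sum]
      exact Finset.sum_congr rfl fun l _ => by ring
  have h2 : (aeval u (2 * (derivative B * S - B * derivative S) * q
        + B * S * derivative q) / aeval u (S ^ 2) - 2 * algebraMap k M c
        - ∑ l, algebraMap k M (γ l) * (aeval u (H10.EL.num q (α l) (β l)) /
          aeval u (α l ^ 2 - β l ^ 2 * q)))
      + (y - ∑ l, algebraMap k M (γ l) * v l) * w = 0 := by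
    rw [hDT] at h1
    simp only [hlog] at h1
    have e1 : ∑ l, algebraMap k M (γ l) * (v l * w + aeval u (H10.EL.num q (α l) (β l)) /
          aeval u (α l ^ 2 - β l ^ 2 * q)) = (∑ l, algebraMap k M (γ l) * v l) * w
          + ∑ l, algebraMap k M (γ l) * (aeval u (H10.EL.num q (α l) (β l)) /
          aeval u (α l ^ 2 - β l ^ 2 * q)) := by
      rw [Finset.sum_mul, ← Finset.sum_add_distrib]
      exact Finset.sum_congr rfl fun l _ => by ring
    rw [e1] at h1
    linear_combination h1
  have h3 := lin' hu hq3 hw ?_ ?_ h2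
  · have h4 : (aeval u (2 * (derivative B * S - B * derivative S) * q
        + B * S * derivative q) / aeval u (S ^ 2) - 2 * algebraMap k M c
        - ∑ l, algebraMap k M (γ l) * (aeval u (H10.EL.num q (α l) (β l)) /
          aeval u (α l ^ 2 - β l ^ 2 * q))) * (aeval u (S ^ 2) *
          ∏ l, aeval u (α l ^ 2 - β l ^ 2 * q)) = 0 := by rw [h3, zero_mul]
    have hS2 : aeval u (S ^ 2) ≠ 0 := av_ne hu (pow_ne_zero _ hS)
    have h5 : (∑ l, algebraMap k M (γ l) * (aeval u (H10.EL.num q (α l) (β l)) /
          aeval u (α l ^ 2 - β l ^ 2 * q))) * ∏ l, aeval u (α l ^ 2 - β l ^ 2 * q) =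
        ∑ l, algebraMap k M (γ l) * aeval u (H10.EL.num q (α l) (β l)) *
          ∏ j ∈ Finset.univ.erase l, aeval u (α j ^ 2 - β j ^ 2 * q) := by
      rw [Finset.sum_mul]
      refine Finset.sum_congr rfl fun l _ => ?_
      rw [← Finset.mul_prod_erase Finset.univ (fun j => aeval u (α j ^ 2 - β j ^ 2 * q))
        (Finset.mem_univ l)]
      have := hnu l
      field_simp
    have h6 : aeval u (2 * (derivative B * S - B * derivative S) * q
        + B * S * derivative q) / aeval u (S ^ 2) * aeval u (S ^ 2) =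
        aeval u (2 * (derivative B * S - B * derivative S) * q
        + B * S * derivative q) := div_mul_cancel₀ _ hS2
    unfold H10.EL.Cleared
    apply av_inj hu
    have e2 : aeval u (C (2 * c) * S ^ 2 * ∏ l, (α l ^ 2 - β l ^ 2 * q)) =
        2 * algebraMap k M c * aeval u (S ^ 2) * ∏ l, aeval u (α l ^ 2 - β l ^ 2 * q) := by
      rw [map_mul, map_mul, map_prod, aeval_C, map_mul, map_ofNat]
    have e3 : aeval u ((2 * (derivative B * S - B * derivative S) * q + B * S * derivative q) *
        ∏ l, (α l ^ 2 - β l ^ 2 * q) -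
      S ^ 2 * ∑ l, C (γ l) * H10.EL.num q (α l) (β l) *
        ∏ j ∈ Finset.univ.erase l, (α j ^ 2 - β j ^ 2 * q)) =
        aeval u (2 * (derivative B * S - B * derivative S) * q + B * S * derivative q) *
        ∏ l, aeval u (α l ^ 2 - β l ^ 2 * q) - aeval u (S ^ 2) *
        ∑ l, algebraMap k M (γ l) * aeval u (H10.EL.num q (α l) (β l)) *
          ∏ j ∈ Finset.univ.erase l, aeval u (α j ^ 2 - β j ^ 2 * q) := by
      rw [map_sub, map_mul, map_mul (aeval u) (S ^ 2), map_prod, map_sum]
      congr 2
      refine Finset.sum_congr rfl fun l _ => ?_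
      rw [map_mul, map_mul, map_prod, aeval_C]
    rw [e2, e3, ← h5]
    linear_combination (∏ l, aeval u (α l ^ 2 - β l ^ 2 * q)) * h6 - h4
  · refine sub_mem (sub_mem (div_mem (av_mem _) (av_mem _)) (mul_mem (ofNat_mem _ 2)
      (IntermediateField.algebraMap_mem _ c))) (sum_mem fun l _ => mul_mem
      (IntermediateField.algebraMap_mem _ _) (div_mem (av_mem _) (av_mem _)))
  · exact sub_mem hy (sum_mem fun l _ => mul_mem (IntermediateField.algebraMap_mem _ _) (hv l))

/-- L2 with the statement of L3 as a hypothesis -/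
theorem ell_E_of (poly : ∀ {k : Type} [Field k] [CharZero k] {r : ℕ} (q : k[X])
      (_ : q.natDegree = 3) (_ : Squarefree q)
      (γ : Fin r → k) (_ : ∀ e : Fin r → ℤ, ∑ l, γ l * (e l : k) = 0 → e = 0)
      (α β : Fin r → k[X]) (_ : ∀ l, IsCoprime (α l) (β l))
      (_ : ∀ l, α l ^ 2 - β l ^ 2 * q ≠ 0) (B S : k[X])
      (_ : S ≠ 0) (c : k) (_ : H10.EL.Cleared q γ α β B S c), c = 0)
    {k M : Type} [Field k] [Field M] [CharZero M] [Algebra k M] {u w : M}
    (hu : Transcendental k u) (q : k[X]) (hq3 : q.natDegree = 3) (hsq : Squarefree q)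
    (hw : w ^ 2 = aeval u q) (D : Derivation k M M) (hD : D u = 1) {r : ℕ} (γ : Fin r → k)
    (hγ : ∀ e : Fin r → ℤ, ∑ l, γ l * (e l : k) = 0 → e = 0) (N : Fin r → M)
    (hN : ∀ l, N l ∈ IntermediateField.adjoin k {u, w}) (hN0 : ∀ l, N l ≠ 0) (T : M)
    (hT : T ∈ IntermediateField.adjoin k {u, w}) (c : k)
    (h : D T = algebraMap k M c * (1 / w) + ∑ l, algebraMap k M (γ l) * (D (N l) / N l)) :
    c = 0 := by
  haveI : CharZero k := (algebraMap k M).charZero
  obtain ⟨α, β, B, S, h1, h2, h3, h4⟩ := cleared_of hu q hq3 hw D hD γ N hN hN0 T hT c h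
  exact poly q hq3 hsq γ hγ α β h1 h2 B S h3 c h4

end Pool.Agent.H46.EL
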